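import Pool.Agent.R660.PA.Count

/-!
# Penney-Ante against a uniformly random first player

`tosses` is the law on `ℕ → Bool` of an infinite sequence of independent tosses of a fair coin.
-/

set_option autoImplicit false

namespace Pool.Agent.Results.MP_988dcd_pr.RandomFirstPlayer

open MeasureTheory Set Filter Topology Pool.Agent.R660.PA

/-- The string `X` occurs in the sequence of tosses `ω` as the block of the tosses
`t, t + 1, ..., t + n - 1`. -/
def Occurs {n : ℕ} (X : Fin n → Bool) (ω : ℕ → Bool) (t : ℕ) : Prop :=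
  ∀ i : Fin n, ω (t + i) = X i

/-- The probability that `B` appears before `A`: some occurrence of `B` has no occurrence of `A`
before it or at the same place. -/
noncomputable def probBefore {n : ℕ} (B A : Fin n → Bool) : ℝ :=
  tosses.real {ω | ∃ t, Occurs B ω t ∧ ∀ s ≤ t, ¬ Occurs A ω s}

/-- The winning probability of Player II when Player I picks `A` uniformly at random and Player II
answers each `A` with a best response (the supremum is over finitely many strings `B ≠ A`). -/
noncomputable def pRandOpt (n : ℕ) : ℝ :=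
  (1 / 2 ^ n) * ∑ A : Fin n → Bool, ⨆ B : {B : Fin n → Bool // B ≠ A}, probBefore B.1 A

theorem occurs_iff {n : ℕ} (X : Fin n → Bool) (Y : ℕ → Bool) (hY : ∀ i < n, ex X i = Y i)
    (ω : ℕ → Bool) (t : ℕ) : Occurs X ω t ↔ occ n Y ω t := by
  constructor
  · intro h i hi
    rw [← hY i hi]
    have := h ⟨i, hi⟩
    simpa [ex, hi] using this
  · intro h i
    have := h i i.2
    rw [← hY i i.2] at this
    simpa [ex] using this

theorem prob_eq {n : ℕ} (B A : Fin n → Bool) (Y : ℕ → Bool) (hY : ∀ i < n, ex B i = Y i) :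
    probBefore B A =
      tosses.real {ω | ∃ t, occ n Y ω t ∧ ∀ s ≤ t, ¬ occ n (ex A) ω s} := by
  unfold probBefore
  congr 1
  ext ω
  simp only [mem_ofPred_eq, occurs_iff B Y hY, occurs_iff A (ex A) (fun _ _ => rfl)]

theorem prob_nonneg {n : ℕ} (B A : Fin n → Bool) : 0 ≤ probBefore B A := measureReal_nonneg

theorem prob_le_one' {n : ℕ} (B A : Fin n → Bool) : probBefore B A ≤ 1 := measureReal_le_one

theorem exists_ne {n : ℕ} (hn : 1 ≤ n) (A : Fin n → Bool) :
    Nonempty {B : Fin n → Bool // B ≠ A} :=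
  ⟨fun i => !(A i), fun h => by
    have := congrFun h ⟨0, hn⟩
    simp at this⟩

theorem bdd {n : ℕ} (A : Fin n → Bool) :
    BddAbove (range fun B : {B : Fin n → Bool // B ≠ A} => probBefore B.1 A) :=
  (Set.finite_range _).bddAbove

/-- the shifted string -/
def bst {m : ℕ} (A : Fin (m + 2) → Bool) : Fin (m + 2) → Bool := fun i => Bst (ex A) i

theorem ex_bst {m : ℕ} (A : Fin (m + 2) → Bool) : ∀ i < m + 2, ex (bst A) i = Bst (ex A) i := by
  intro i hi
  simp [ex, hi, bst]

theorem bst_ne {m : ℕ} (A : Fin (m + 2) → Bool) : bst A ≠ A := by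
  intro h
  have h1 := ex_bst A 0 (by omega)
  rw [h] at h1
  simp [Bst] at h1

theorem main_bound (m : ℕ) : |pRandOpt (m + 2) - 2 / 3| ≤ 2 * (m + 1) / 2 ^ (m + 2) := by
  have hN : (0 : ℝ) < 2 ^ m := by positivity
  have hcard : ∑ _A : Fin (m + 2) → Bool, (2 / 3 : ℝ) = 2 / 3 * 2 ^ (m + 2) := by
    rw [Finset.sum_const, nsmul_eq_mul]
    simp [mul_comm]
  have up : ∑ A : Fin (m + 2) → Bool, (⨆ B : {B : Fin (m + 2) → Bool // B ≠ A}, probBefore B.1 A) ≤
      2 / 3 * 2 ^ (m + 2) + (m + 1) := by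
    calc ∑ A : Fin (m + 2) → Bool, (⨆ B : {B : Fin (m + 2) → Bool // B ≠ A}, probBefore B.1 A)
        ≤ ∑ A : Fin (m + 2) → Bool,
          (2 / 3 + (oo m (ex A) + 2 * op m (ex A)) / (6 * 2 ^ m)) := by
          apply Finset.sum_le_sum
          intro A _
          have := exists_ne (by omega) A
          apply ciSup_le
          rintro ⟨B, hB⟩
          rw [prob_eq B A (ex B) (fun _ _ => rfl)]
          apply Pool.Agent.R660.PA.upper
          by_contra hcon
          push Not at hcon
          exact hB (ex_ext hcon)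
      _ = 2 / 3 * 2 ^ (m + 2) + (∑ A : Fin (m + 2) → Bool, oo m (ex A) +
          2 * ∑ A : Fin (m + 2) → Bool, op m (ex A)) / (6 * 2 ^ m) := by
          rw [Finset.sum_add_distrib, hcard, ← Finset.sum_div, Finset.sum_add_distrib,
            Finset.mul_sum]
      _ ≤ 2 / 3 * 2 ^ (m + 2) + ((m + 1) * 2 ^ (m + 1) + 2 * (m * 2 ^ (m + 1))) / (6 * 2 ^ m) := by
          gcongr
          · exact S1 m
          · exact S2 m
      _ = 2 / 3 * 2 ^ (m + 2) + (3 * m + 1) / 3 := by
          congr 1
          rw [pow_succ]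
          field_simp
          ring
      _ ≤ _ := by linarith
  have low : 2 / 3 * 2 ^ (m + 2) - 2 * (m + 1) ≤
      ∑ A : Fin (m + 2) → Bool, (⨆ B : {B : Fin (m + 2) → Bool // B ≠ A}, probBefore B.1 A) := by
    calc (2 / 3 * 2 ^ (m + 2) - 2 * (m + 1) : ℝ)
        = 2 / 3 * 2 ^ (m + 2) - ((m + 1) * 2 ^ (m + 1) + 2 * ((m + 1) * 2 ^ (m + 1))) /
          (3 * 2 ^ m) := by
          congr 1
          rw [pow_succ (2 : ℝ) m]
          field_simp
          ring
      _ ≤ 2 / 3 * 2 ^ (m + 2) - (∑ A : Fin (m + 2) → Bool, oc m (ex A) +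
          2 * ∑ A : Fin (m + 2) → Bool, oo m (Bst (ex A))) / (3 * 2 ^ m) := by
          gcongr
          · exact S3 m
          · exact S4 m
      _ = ∑ A : Fin (m + 2) → Bool,
          (2 / 3 - (oc m (ex A) + 2 * oo m (Bst (ex A))) / (3 * 2 ^ m)) := by
          rw [Finset.sum_sub_distrib, hcard, ← Finset.sum_div, Finset.sum_add_distrib,
            Finset.mul_sum]
      _ ≤ _ := by
          apply Finset.sum_le_sum
          intro A _
          have h1 := le_ciSup (bdd A) ⟨bst A, bst_ne A⟩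
          refine le_trans ?_ h1
          rw [prob_eq (bst A) A (Bst (ex A)) (ex_bst A)]
          exact Pool.Agent.R660.PA.lower m (ex A)
  have h2 : (0 : ℝ) < 2 ^ (m + 2) := by positivity
  unfold pRandOpt
  rw [abs_le]
  set S := ∑ A : Fin (m + 2) → Bool, (⨆ B : {B : Fin (m + 2) → Bool // B ≠ A}, probBefore B.1 A)
  have e : 1 / 2 ^ (m + 2) * S - 2 / 3 = (S - 2 / 3 * 2 ^ (m + 2)) / 2 ^ (m + 2) := by
    field_simp
  rw [e]
  constructor
  · rw [← neg_div]
    gcongr
    linarith
  · gcongr
    have : (0 : ℝ) ≤ m := Nat.cast_nonneg m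
    linarith

/-- `|p_n - 2/3| ≤ 2 n / 2^n` for all `n ≥ 1`; in particular `p_n = 2/3 + O(n / 2^n)`. -/
theorem result : (∀ n : ℕ, 1 ≤ n → |pRandOpt n - 2 / 3| ≤ 2 * n / 2 ^ n) ∧
    (fun n : ℕ => pRandOpt n - 2 / 3) =O[atTop] (fun n : ℕ => (n : ℝ) / 2 ^ n) := by
  have key : ∀ n : ℕ, 1 ≤ n → |pRandOpt n - 2 / 3| ≤ 2 * n / 2 ^ n := by
    intro n hn
    rcases Nat.lt_or_ge n 2 with h | h
    · have h1 : n = 1 := by omega
      subst h1
      have h0 : 0 ≤ pRandOpt 1 := by
        unfold pRandOpt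
        apply mul_nonneg (by positivity)
        apply Finset.sum_nonneg
        intro A _
        obtain ⟨B, hB⟩ := (exists_ne le_rfl A).some
        exact (prob_nonneg B A).trans (le_ciSup (bdd A) ⟨B, hB⟩)
      have h1 : pRandOpt 1 ≤ 1 := by
        unfold pRandOpt
        have : ∑ A : Fin 1 → Bool, (⨆ B : {B : Fin 1 → Bool // B ≠ A}, probBefore B.1 A) ≤
            ∑ _A : Fin 1 → Bool, (1 : ℝ) := by
          apply Finset.sum_le_sum
          intro A _
          have := exists_ne le_rfl A
          exact ciSup_le fun B => prob_le_one' _ _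
        have h2 : ∑ _A : Fin 1 → Bool, (1 : ℝ) = 2 := by simp
        rw [h2] at this
        linarith
      rw [abs_le]
      constructor <;> norm_num <;> linarith
    · obtain ⟨m, rfl⟩ : ∃ m, n = m + 2 := ⟨n - 2, by omega⟩
      refine (main_bound m).trans ?_
      push_cast
      gcongr
      linarith
  refine ⟨key, ?_⟩
  apply Asymptotics.IsBigO.of_bound 2
  filter_upwards [eventually_ge_atTop 1] with n hn
  rw [Real.norm_eq_abs, Real.norm_of_nonneg (by positivity)]
  have := key n hn
  rwa [← mul_div_assoc]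

end Pool.Agent.Results.MP_988dcd_pr.RandomFirstPlayer
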